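import Pool.Agent.Helper53.CX.M_Sum
import Pool.Agent.Helper83.CO.St

/-! MODULE SUC of project CO: the main inequality. -/

set_option autoImplicit false

open scoped BigOperators
open MvPolynomial

namespace Pool.Agent.Helper97.CO

open Pool.Agent.Helper53.CX Pool.Agent.Helper83.CO

theorem SUC_lin {V τ σ : Type} (D : Finset τ) (la : τ → ℝ) (vd : τ → V) (κ : ℝ) (v' : V)
    (s : Finset σ) (c : σ → ℝ) (f : σ → V → ℝ) :
    (∑ e ∈ D, la e * (∑ j ∈ s, c j * f j (vd e))) - κ * (∑ j ∈ s, c j * f j v') =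
      ∑ j ∈ s, c j * (∑ e ∈ D, la e * f j (vd e) - κ * f j v') := by
  simp only [mul_sub, Finset.mul_sum, Finset.sum_sub_distrib]
  rw [Finset.sum_comm]
  congr 1
  · refine Finset.sum_congr rfl fun j _ => Finset.sum_congr rfl fun e _ => ?_
    ring
  · refine Finset.sum_congr rfl fun j _ => ?_
    ring

/-- associated polynomials have the same order -/
theorem SUC_assoc {n : ℕ} (v : DivVal (Kn n)) (R R' : Pn n) (h : Associated R R') (hR : R ≠ 0) :
    v.ord (algebraMap (Pn n) (Kn n) R') = v.ord (algebraMap (Pn n) (Kn n) R) := by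
  obtain ⟨u, rfl⟩ := h
  obtain ⟨r, hr, hu⟩ := (MvPolynomial.isUnit_iff_eq_C_of_isReduced).1 u.isUnit
  have hr0 : r ≠ 0 := hr.ne_zero
  have e : algebraMap (Pn n) (Kn n) (C r) = algebraMap ℂ (Kn n) r := by
    rw [IsScalarTower.algebraMap_apply ℂ (Pn n) (Kn n), MvPolynomial.algebraMap_eq]
  rw [hu, map_mul, e, v.ord_mul _ _ (Sum_alg_ne R hR) (Sum_const_ne r hr0), Sum_ord_const v r hr0,
    add_zero]

theorem SUC_mem_image (P : Finset ℂ) (h0 : (0 : ℂ) ∉ P) (s : Option ℂ) (hs : s ∈ crit P) :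
    (s ∈ P.image some) ↔ ¬ (s = none ∨ s = some 0) := by
  unfold crit at hs
  rw [Finset.mem_insert, Finset.mem_insert] at hs
  constructor
  · intro h h'
    obtain ⟨c, hc, rfl⟩ := Finset.mem_image.1 h
    rcases h' with h' | h'
    · exact absurd h' (by simp)
    · rw [Option.some.injEq] at h'
      rw [h'] at hc
      exact h0 hc
  · intro h
    rcases hs with hs | hs | hs
    · exact absurd (Or.inl hs) h
    · exact absurd (Or.inr hs) h
    · exact hs

/-- the canonical divisor -/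
theorem SUC_om (hOMS : StOMS) {k : ℕ} {P : Finset ℂ} {D : Finset (Option ℂ × (Fin (k + 1) → ℤ))}
    (hC : IsC1 P D) (A : Adm P D) :
    ∑ e ∈ D, (A.la e : ℤ) * ordOmega (A.vd e) - A.κ * (1 + ordOmega A.v') =
      - ∑ e ∈ D, (A.la e : ℤ) + P.card * A.d := by
  have h1 : ∀ e ∈ D, (A.la e : ℤ) * ordOmega (A.vd e) = - (A.la e : ℤ) +
      ∑ s ∈ P.image some, (if e.1 = s then (A.la e : ℤ) * e.2 0 else 0) := by
    intro e he
    obtain ⟨hm, hm0, -⟩ := hC.mem e he
    obtain ⟨u, hu⟩ := hC.prim e he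
    rw [hOMS k e.1 e.2 u (A.vd e) hu hm0 (A.hvd e he), Finset.sum_ite_eq]
    have := SUC_mem_image P hC.zero e.1 hm
    by_cases h : e.1 = none ∨ e.1 = some 0
    · rw [if_pos h, if_neg (fun h' => (this.1 h') h)]
      ring
    · rw [if_neg h, if_pos (this.2 h)]
      ring
  have h2 : ∑ e ∈ D, ∑ s ∈ P.image some, (if e.1 = s then (A.la e : ℤ) * e.2 0 else 0) =
      ∑ s ∈ P.image some, ((A.d : ℤ) + if s = A.s₀ then A.κ * A.w 0 else 0) := by
    rw [Finset.sum_comm]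
    refine Finset.sum_congr rfl fun s hs => ?_
    rw [← A.base s (by
      unfold crit
      exact Finset.mem_insert_of_mem (Finset.mem_insert_of_mem hs)), Finset.sum_filter]
  have h3 : (P.image (some : ℂ → Option ℂ)).card = P.card :=
    Finset.card_image_of_injective _ (Option.some_injective _)
  obtain ⟨u, hu⟩ := A.hu
  have h4 : (A.κ : ℤ) * (1 + ordOmega A.v') = if A.s₀ ∈ P.image some then A.κ * A.w 0 else 0 := by
    rw [hOMS k A.s₀ A.w u A.v' hu A.hw A.hv']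
    have := SUC_mem_image P hC.zero A.s₀ A.hs
    by_cases h : A.s₀ = none ∨ A.s₀ = some 0
    · rw [if_pos h, if_neg (fun h' => (this.1 h') h)]
      ring
    · rw [if_neg h, if_pos (this.2 h)]
      ring
  rw [Finset.sum_congr rfl h1, Finset.sum_add_distrib, h2, h4, Finset.sum_add_distrib,
    Finset.sum_const, h3, Finset.sum_ite_eq', Finset.sum_neg_distrib]
  simp only [nsmul_eq_mul]
  ring

/-- MODULE SUC. -/
theorem hSUC (hEX : StEX) (hOMS : StOMS) (hPRI : StPRI) (hNEC : StNEC) (hADM : StADM)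
    (_hExt : StExt) (hPadV : StPadV) (hFac : StFac) (hBri : StBri) (hNorm : StNorm) : StSUC := by
  classical
  intro k ι _ S p hp P D hC hT
  -- normalisation
  have hN : ∀ i, ∃ h : Kn (k + 1), h ≠ 0 ∧ NormNef (fun v => p.M i v - v.ord h) := fun i =>
    hNorm (k + 1) (p.M i) (hp.nef i)
  choose h hh0 hhN using hN
  set g' : Kn (k + 1) →₀ ℝ := p.g - ∑ i, Finsupp.single (h i) (p.b i) with hg'
  have hB : ∀ v, p.B v = rdiv g' v - (ordOmega v : ℝ) -
      ∑ i, p.b i * ((p.M i v - v.ord (h i) : ℤ) : ℝ) := by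
    intro v
    rw [hg', Sum_rdiv_sub]
    unfold PairData.B
    have e : ∑ i, p.b i * ((p.M i v - v.ord (h i) : ℤ) : ℝ) =
        ∑ i, p.b i * (p.M i v : ℝ) - ∑ i, p.b i * (v.ord (h i) : ℝ) := by
      rw [← Finset.sum_sub_distrib]
      refine Finset.sum_congr rfl fun i _ => ?_
      push_cast
      ring
    rw [e]
    ring
  -- factorisation
  set G0 : Finset (Kn (k + 1)) := g'.support.erase 0 with hG0
  obtain ⟨Q, hQ1, hQ2, hQ3⟩ := hFac (k + 1) G0 (fun g hg => Finset.ne_of_mem_erase hg)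
  have hfac : ∀ g : Kn (k + 1), ∃ u : Fin (k + 1) → ℤ, g ∈ G0 → ∀ v : DivVal (Kn (k + 1)),
      v.ord g = ∑ j, u j * v.ord (x j) +
        ∑ R ∈ Q, padOrd R g * v.ord (algebraMap (Pn (k + 1)) (Kn (k + 1)) R) := by
    intro g
    by_cases hg : g ∈ G0
    · obtain ⟨⟨c, u, hc, he⟩, -⟩ := hQ3 g hg
      refine ⟨u, fun _ v => ?_⟩
      have hPne : ∀ R ∈ Q, algebraMap (Pn (k + 1)) (Kn (k + 1)) R ≠ 0 := fun R hR =>
        Sum_alg_ne _ (hQ1 R hR).1.ne_zero
      have h1 : v.ord (algebraMap ℂ (Kn (k + 1)) c * xm u *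
          ∏ R ∈ Q, (algebraMap (Pn (k + 1)) (Kn (k + 1)) R) ^ (padOrd R g)) =
          ∑ j, u j * v.ord (x j) +
          ∑ R ∈ Q, padOrd R g * v.ord (algebraMap (Pn (k + 1)) (Kn (k + 1)) R) := by
        rw [v.ord_mul _ _ (mul_ne_zero (Sum_const_ne c hc) (Sum_xm_ne u))
          (Finset.prod_ne_zero_iff.2 fun R hR => zpow_ne_zero _ (hPne R hR)),
          v.ord_mul _ _ (Sum_const_ne c hc) (Sum_xm_ne u), Sum_ord_const v c hc, Sum_ord_xm,
          Sum_ord_prod v _ _ (fun R hR => zpow_ne_zero _ (hPne R hR)), zero_add]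
        congr 1
        exact Finset.sum_congr rfl fun R hR => Sum_ord_zpow v _ (hPne R hR) _
      rw [← h1]
      exact congrArg v.ord he
    · exact ⟨0, fun h => absurd h hg⟩
  choose u hu using hfac
  set U : Fin (k + 1) → ℝ := fun j => ∑ g ∈ G0, g' g * (u g j : ℝ) with hU
  set E : Pn (k + 1) → ℝ := fun R => ∑ g ∈ G0, g' g * (padOrd R g : ℝ) with hE
  have hrd : ∀ v : DivVal (Kn (k + 1)), rdiv g' v = ∑ g ∈ G0, g' g * (v.ord g : ℝ) := by
    intro v
    unfold rdiv Finsupp.sum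
    rw [hG0]
    symm
    apply Finset.sum_subset (Finset.erase_subset _ _)
    intro f hf hf'
    have : f = 0 := by
      by_contra hne
      exact hf' (Finset.mem_erase.2 ⟨hne, hf⟩)
    rw [this, v.ord_zero]
    simp
  have hrd2 : ∀ v : DivVal (Kn (k + 1)), rdiv g' v = ∑ j, U j * (v.ord (x j) : ℝ) +
      ∑ R ∈ Q, E R * (v.ord (algebraMap (Pn (k + 1)) (Kn (k + 1)) R) : ℝ) := by
    intro v
    rw [hrd]
    have e1 : ∑ j, U j * (v.ord (x j) : ℝ) =
        ∑ g ∈ G0, g' g * ∑ j, (u g j : ℝ) * (v.ord (x j) : ℝ) := by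
      simp only [hU, Finset.sum_mul, Finset.mul_sum]
      rw [Finset.sum_comm]
      refine Finset.sum_congr rfl fun g _ => Finset.sum_congr rfl fun j _ => ?_
      ring
    have e2 : ∑ R ∈ Q, E R * (v.ord (algebraMap (Pn (k + 1)) (Kn (k + 1)) R) : ℝ) =
        ∑ g ∈ G0, g' g * ∑ R ∈ Q, (padOrd R g : ℝ) *
          (v.ord (algebraMap (Pn (k + 1)) (Kn (k + 1)) R) : ℝ) := by
      simp only [hE, Finset.sum_mul, Finset.mul_sum]
      rw [Finset.sum_comm]
      refine Finset.sum_congr rfl fun g _ => Finset.sum_congr rfl fun R _ => ?_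
      ring
    rw [e1, e2, ← Finset.sum_add_distrib]
    refine Finset.sum_congr rfl fun g hg => ?_
    rw [hu g hg v]
    push_cast
    ring
  -- the torus primes
  have hBP : ∀ (R : Pn (k + 1)) (v : DivVal (Kn (k + 1))), TorusPrime R → v.ord = padOrd R →
      p.B v = E R := by
    intro R v hR hv
    have h1 := ((hPadV (k + 1) R hR.1).2 hR v hv).2
    have h2 : ∀ i, p.M i v - v.ord (h i) = 0 := fun i => (hhN i).1 R v hR hv
    have e0 : ∑ i, p.b i * ((p.M i v - v.ord (h i) : ℤ) : ℝ) = 0 :=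
      Finset.sum_eq_zero fun i _ => by rw [h2 i]; simp
    rw [hB, h1, hrd, e0]
    simp only [hE, hv]
    simp
  have hE0 : ∀ R, TorusPrime R → (∀ c ∈ P, ¬ Associated R (X 0 - C c)) → 0 ≤ E R := by
    intro R hR hRc
    obtain ⟨v, hv⟩ := (hPadV (k + 1) R hR.1).1
    rw [← hBP R v hR hv]
    have h1 : IsC1Prime P D v := Or.inr ⟨R, hR, hRc, ((hBri (k + 1) v).2.1 R hR.1).2 hv⟩
    rcases hT v h1 with h2 | h2
    · exact hp.effective v h2
    · rw [h2]; norm_num
  -- the choice of valuations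
  obtain ⟨v0, -, -⟩ := hEX k none (Pi.single 0 1) (Pi.single 0 1) (by simp)
    (by
      rw [Finset.sum_eq_single 0]
      · simp
      · intro j _ hj
        simp [hj]
      · intro hj
        exact absurd (Finset.mem_univ _) hj)
  have hvd : ∀ e : Option ℂ × (Fin (k + 1) → ℤ), ∃ v : DivVal (Kn (k + 1)), e ∈ D →
      IsToricIn (ys e.1) v e.2 ∧ IsVal v e.1 e.2 := by
    intro e
    by_cases he : e ∈ D
    · obtain ⟨w, hw⟩ := hC.prim e he
      obtain ⟨v, hv⟩ := hEX k e.1 e.2 w (hC.mem e he).2.1 hw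
      exact ⟨v, fun _ => hv⟩
    · exact ⟨v0, fun h => absurd h he⟩
  choose vd hvd using hvd
  have hvP : ∀ R : Pn (k + 1), ∃ v : DivVal (Kn (k + 1)), TorusPrime R → v.ord = padOrd R := by
    intro R
    by_cases hR : TorusPrime R
    · obtain ⟨v, hv⟩ := (hPadV (k + 1) R hR.1).1
      exact ⟨v, fun _ => hv⟩
    · exact ⟨v0, fun h => absurd h hR⟩
  choose vP hvP using hvP
  set Q1 : Finset (Pn (k + 1)) := Q.filter (fun R => ∀ c ∈ P, ¬ Associated R (X 0 - C c)) with hQ1d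
  have hBd : ∀ e ∈ D, 0 ≤ p.B (vd e) := by
    intro e he
    have h1 : IsC1Prime P D (vd e) := Or.inl ⟨e, he, (hvd e he).1⟩
    rcases hT (vd e) h1 with h2 | h2
    · exact hp.effective _ h2
    · rw [h2]; norm_num
  obtain ⟨A, hAvd, hAcard⟩ := hADM k P D vd hC (fun e he => (hvd e he).2)
  obtain ⟨hL1, hL2, hL3⟩ := hPRI k P D A hC
  refine ⟨Q1, ?_, ?_, ?_, vd, vP, hvd, ?_, ?_⟩
  · intro R hR
    rw [hQ1d, Finset.mem_filter] at hR
    exact ⟨hQ1 R hR.1, hR.2⟩
  · intro R hR R' hR' hRR'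
    exact hQ2 R (Finset.mem_filter.1 hR).1 R' (Finset.mem_filter.1 hR').1 hRR'
  · intro R v hR hRc hv hRQ
    rw [hBP R v hR hv]
    simp only [hE]
    refine Finset.sum_eq_zero fun g hg => ?_
    rw [(hQ3 g hg).2 R hR ?_]
    · simp
    · intro R' hR' hRR'
      refine hRQ R' ?_ hRR'
      rw [hQ1d, Finset.mem_filter]
      exact ⟨hR', fun c hc hRc' => hRc c hc (hRR'.trans hRc')⟩
  · intro R hR
    exact hvP R (hQ1 R (Finset.mem_filter.1 hR).1)
  · -- the inequality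
    set LR : (DivVal (Kn (k + 1)) → ℝ) → ℝ := fun ψ =>
      ∑ e ∈ D, (A.la e : ℝ) * ψ (vd e) - (A.κ : ℝ) * ψ A.v' with hLR
    have hLam : ∀ φ : DivVal (Kn (k + 1)) → ℤ, LR (fun v => (φ v : ℝ)) = ((A.Lam φ : ℤ) : ℝ) := by
      intro φ
      simp only [hLR, Adm.Lam, hAvd]
      push_cast
      rfl
    have hadd : ∀ ψ₁ ψ₂ ψ₃ : DivVal (Kn (k + 1)) → ℝ,
        LR (fun v => ψ₁ v + ψ₂ v - ψ₃ v) = LR ψ₁ + LR ψ₂ - LR ψ₃ := by
      intro ψ₁ ψ₂ ψ₃
      simp only [hLR, mul_add, mul_sub, Finset.sum_add_distrib, Finset.sum_sub_distrib]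
      ring
    have hpsi : ∀ v, p.B v + (ordOmega v : ℝ) = ∑ j, U j * (v.ord (x j) : ℝ) +
        ∑ R ∈ Q, E R * (v.ord (algebraMap (Pn (k + 1)) (Kn (k + 1)) R) : ℝ) -
        ∑ i, p.b i * ((p.M i v - v.ord (h i) : ℤ) : ℝ) := by
      intro v
      rw [hB, hrd2]
      ring
    have hmain : LR (fun v => p.B v + (ordOmega v : ℝ)) =
        ∑ j, U j * ((A.Lam (fun v => v.ord (x j)) : ℤ) : ℝ) +
        ∑ R ∈ Q, E R *
          ((A.Lam (fun v => v.ord (algebraMap (Pn (k + 1)) (Kn (k + 1)) R)) : ℤ) : ℝ) -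
        ∑ i, p.b i * ((A.Lam (fun v => p.M i v - v.ord (h i)) : ℤ) : ℝ) := by
      have e0 : (fun v => p.B v + (ordOmega v : ℝ)) = fun v => ∑ j, U j * (v.ord (x j) : ℝ) +
        ∑ R ∈ Q, E R * (v.ord (algebraMap (Pn (k + 1)) (Kn (k + 1)) R) : ℝ) -
        ∑ i, p.b i * ((p.M i v - v.ord (h i) : ℤ) : ℝ) := funext hpsi
      rw [e0]
      refine (hadd (fun v => ∑ j, U j * (v.ord (x j) : ℝ)) (fun v => ∑ R ∈ Q, E R *
          (v.ord (algebraMap (Pn (k + 1)) (Kn (k + 1)) R) : ℝ))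
          (fun v => ∑ i, p.b i * ((p.M i v - v.ord (h i) : ℤ) : ℝ))).trans ?_
      have a1 : LR (fun v => ∑ j, U j * (v.ord (x j) : ℝ)) =
          ∑ j, U j * ((A.Lam (fun v => v.ord (x j)) : ℤ) : ℝ) := by
        simp only [← hLam]
        exact SUC_lin D _ vd _ A.v' Finset.univ U (fun j v => (v.ord (x j) : ℝ))
      have a2 : LR (fun v => ∑ R ∈ Q, E R *
          (v.ord (algebraMap (Pn (k + 1)) (Kn (k + 1)) R) : ℝ)) = ∑ R ∈ Q, E R *
          ((A.Lam (fun v => v.ord (algebraMap (Pn (k + 1)) (Kn (k + 1)) R)) : ℤ) : ℝ) := by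
        simp only [← hLam]
        exact SUC_lin D _ vd _ A.v' Q E
          (fun R v => (v.ord (algebraMap (Pn (k + 1)) (Kn (k + 1)) R) : ℝ))
      have a3 : LR (fun v => ∑ i, p.b i * ((p.M i v - v.ord (h i) : ℤ) : ℝ)) =
          ∑ i, p.b i * ((A.Lam (fun v => p.M i v - v.ord (h i)) : ℤ) : ℝ) := by
        simp only [← hLam]
        exact SUC_lin D _ vd _ A.v' Finset.univ p.b
          (fun i v => ((p.M i v - v.ord (h i) : ℤ) : ℝ))
      rw [a1, a2, a3]
    -- upper bound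
    have hup1 : ∑ j, U j * ((A.Lam (fun v => v.ord (x j)) : ℤ) : ℝ) = 0 :=
      Finset.sum_eq_zero fun j _ => by rw [hL1 j]; simp
    have hup2 : ∑ R ∈ Q, E R *
        ((A.Lam (fun v => v.ord (algebraMap (Pn (k + 1)) (Kn (k + 1)) R)) : ℤ) : ℝ) ≤
        - ∑ R ∈ Q1, E R := by
      have e1 : ∑ R ∈ Q, E R *
          ((A.Lam (fun v => v.ord (algebraMap (Pn (k + 1)) (Kn (k + 1)) R)) : ℤ) : ℝ) =
          ∑ R ∈ Q1, E R *
          ((A.Lam (fun v => v.ord (algebraMap (Pn (k + 1)) (Kn (k + 1)) R)) : ℤ) : ℝ) := by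
        rw [hQ1d, Finset.sum_filter]
        refine Finset.sum_congr rfl fun R hR => ?_
        by_cases hc : ∀ c ∈ P, ¬ Associated R (X 0 - C c)
        · rw [if_pos hc]
        · rw [if_neg hc]
          push Not at hc
          obtain ⟨c, hcP, hRc⟩ := hc
          have e2 : ∀ v : DivVal (Kn (k + 1)),
              v.ord (algebraMap (Pn (k + 1)) (Kn (k + 1)) R) =
              v.ord (x 0 - algebraMap ℂ (Kn (k + 1)) c) := by
            intro v
            rw [← SUC_assoc v R _ hRc (hQ1 R hR).1.ne_zero, map_sub]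
            rw [IsScalarTower.algebraMap_apply ℂ (Pn (k + 1)) (Kn (k + 1)),
              MvPolynomial.algebraMap_eq]
            rfl
          have e3 : (fun v : DivVal (Kn (k + 1)) =>
              v.ord (algebraMap (Pn (k + 1)) (Kn (k + 1)) R)) =
              fun v => v.ord (x 0 - algebraMap ℂ (Kn (k + 1)) c) := funext e2
          rw [e3, hL2 c hcP]
          simp
      rw [e1, ← Finset.sum_neg_distrib]
      refine Finset.sum_le_sum fun R hR => ?_
      have hR' := Finset.mem_filter.1 hR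
      have b1 := hL3 R (hQ1 R hR'.1) hR'.2
      have b2 : ((A.Lam (fun v => v.ord (algebraMap (Pn (k + 1)) (Kn (k + 1)) R)) : ℤ) : ℝ) ≤
          ((-1 : ℤ) : ℝ) := by exact_mod_cast b1
      push_cast at b2
      have b3 := mul_le_mul_of_nonneg_left b2 (hE0 R (hQ1 R hR'.1) hR'.2)
      linarith
    have hup3 : ∑ i, p.b i ≤
        ∑ i, p.b i * ((A.Lam (fun v => p.M i v - v.ord (h i)) : ℤ) : ℝ) := by
      refine Finset.sum_le_sum fun i _ => le_mul_of_one_le_right (hp.b_nonneg i) ?_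
      have b1 : (1 : ℤ) ≤ A.Lam (fun v => p.M i v - v.ord (h i)) := by
        refine hNEC k P D A _ hC (hhN i) ?_
        rintro ⟨f, hf0, hf⟩
        apply hp.nontrivial i
        refine ⟨f * h i, mul_ne_zero hf0 (hh0 i), fun v => ?_⟩
        have h1 : p.M i v - v.ord (h i) = v.ord f := hf v
        rw [v.ord_mul _ _ hf0 (hh0 i)]
        omega
      exact_mod_cast b1
    -- lower bound
    have hom := SUC_om hOMS hC A
    rw [hAvd] at hom
    have homR : ∑ e ∈ D, (A.la e : ℝ) * (ordOmega (vd e) : ℝ) -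
        (A.κ : ℝ) * (1 + (ordOmega A.v' : ℝ)) = - ∑ e ∈ D, (A.la e : ℝ) + P.card * A.d := by
      exact_mod_cast hom
    have hlow : ∑ e ∈ D, (A.la e : ℝ) * p.B (vd e) - ∑ e ∈ D, (A.la e : ℝ) + P.card * A.d ≤
        LR (fun v => p.B v + (ordOmega v : ℝ)) := by
      have e1 : LR (fun v => p.B v + (ordOmega v : ℝ)) = ∑ e ∈ D, (A.la e : ℝ) * p.B (vd e) +
          (∑ e ∈ D, (A.la e : ℝ) * (ordOmega (vd e) : ℝ) -
            (A.κ : ℝ) * (1 + (ordOmega A.v' : ℝ))) + (A.κ : ℝ) * (1 - p.B A.v') := by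
        simp only [hLR, mul_add, Finset.sum_add_distrib]
        ring
      rw [e1, homR]
      have e2 : 0 ≤ (A.κ : ℝ) * (1 - p.B A.v') :=
        mul_nonneg (Nat.cast_nonneg _) (sub_nonneg.2 (hp.glc _))
      linarith
    have hge : ∑ e ∈ D, p.B (vd e) ≤ ∑ e ∈ D, (A.la e : ℝ) * p.B (vd e) :=
      Finset.sum_le_sum fun e he => le_mul_of_one_le_left (hBd e he)
        (by exact_mod_cast A.hla e he)
    have hcard : ∑ e ∈ D, (A.la e : ℝ) + 2 * (P.card : ℝ) ≤ (D.card : ℝ) + P.card * A.d := by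
      exact_mod_cast hAcard
    have hQs : ∑ R ∈ Q1, p.B (vP R) = ∑ R ∈ Q1, E R :=
      Finset.sum_congr rfl fun R hR => hBP R _ (hQ1 R (Finset.mem_filter.1 hR).1)
        (hvP R (hQ1 R (Finset.mem_filter.1 hR).1))
    rw [hQs]
    rw [hmain, hup1] at hlow
    linarith

end Pool.Agent.Helper97.CO
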